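import Pool.Agent.H15.IX.TB

/-!
# idx_modules, row LAT: two lattices, one of them is `t ^ (1/p)` times the other
-/

set_option autoImplicit false

open Finset Pool.Agent.H15.IX

namespace Pool.Agent.H4.IX

universe u

section maxel

variable {A E : Type u} [CommRing A] [Field E] [Algebra A E]

/-- `w` is an element of `M` with the largest value -/
structure Mx (O : ValuationSubring E) (M : Submodule A E) (w : E) : Prop where
  mem : w ∈ M
  ne : w ≠ 0
  le : ∀ x ∈ M, O.valuation x ≤ O.valuation w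

theorem Mx.mul {O : ValuationSubring E} {M N : Submodule A E} {w w' : E} (h : Mx O M w)
    (h' : Mx O N w') : Mx O (M * N) (w * w') := by
  refine ⟨Submodule.mul_mem_mul h.mem h'.mem, mul_ne_zero h.ne h'.ne, fun x hx => ?_⟩
  induction hx using Submodule.mul_induction_on' with
  | mem_mul_mem m hm n hn =>
    rw [map_mul, map_mul]
    exact mul_le_mul' (h.le m hm) (h'.le n hn)
  | add x _ y _ hx hy => exact Valuation.map_add_le _ hx hy

theorem Mx.one {O : ValuationSubring E} (hO : Ov A O) : Mx O (1 : Submodule A E) 1 := by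
  refine ⟨Submodule.one_le.1 le_rfl, one_ne_zero, fun x hx => ?_⟩
  obtain ⟨a, rfl⟩ := Submodule.mem_one.1 hx
  rw [map_one]
  exact (O.valuation_le_one_iff _).2 (hO a)

theorem Mx.pow {O : ValuationSubring E} (hO : Ov A O) {M : Submodule A E} {w : E}
    (h : Mx O M w) (n : ℕ) : Mx O (M ^ n) (w ^ n) := by
  induction n with
  | zero =>
    rw [pow_zero, pow_zero]
    exact Mx.one hO
  | succ n ih =>
    rw [pow_succ, pow_succ]
    exact ih.mul h

theorem Mx.sup {O : ValuationSubring E} {M N : Submodule A E} {w w' : E} (h : Mx O M w)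
    (h' : Mx O N w') (hw : O.valuation w' ≤ O.valuation w) : Mx O (M ⊔ N) w := by
  refine ⟨Submodule.mem_sup_left h.mem, h.ne, fun x hx => ?_⟩
  obtain ⟨y, hy, z, hz, rfl⟩ := Submodule.mem_sup.1 hx
  exact Valuation.map_add_le _ (h.le y hy) ((h'.le z hz).trans hw)

theorem Mx.sup' {O : ValuationSubring E} {M N : Submodule A E} {w w' : E} (h : Mx O M w)
    (h' : Mx O N w') (hw : O.valuation w ≤ O.valuation w') : Mx O (M ⊔ N) w' := by
  rw [sup_comm]
  exact h'.sup h hw

theorem Mx.single {O : ValuationSubring E} (hO : Ov A O) {t : E} (ht : t ≠ 0) :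
    Mx O (Submodule.span A {t}) t := by
  refine ⟨Submodule.mem_span_singleton_self t, ht, fun x hx => ?_⟩
  obtain ⟨a, rfl⟩ := Submodule.mem_span_singleton.1 hx
  rw [Algebra.smul_def, map_mul]
  have h1 := (O.valuation_le_one_iff _).2 (hO a)
  calc O.valuation (algebraMap A E a) * O.valuation t ≤ 1 * O.valuation t :=
        mul_le_mul' h1 le_rfl
    _ = _ := one_mul _

theorem dm_of {O : ValuationSubring E} {M N : Submodule A E} {w w' : E} (h : Mx O M w)
    (h' : Mx O N w') (hw : O.valuation w ≤ O.valuation w') : Dm O M N := by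
  intro x hx
  refine ⟨w', h'.mem, x / w', ?_, (div_mul_cancel₀ x h'.ne).symm⟩
  rw [← O.valuation_le_one_iff, map_div₀]
  have h1 : O.valuation x ≤ O.valuation w' := (h.le x hx).trans hw
  have h2 : O.valuation w' ≠ 0 := (map_ne_zero _).2 h'.ne
  exact div_le_one_of_le₀ h1 zero_le'

theorem val_one {O : ValuationSubring E} {x : E} (hx : x ≠ 0) (h1 : x ∈ O) (h2 : x⁻¹ ∈ O) :
    O.valuation x = 1 := by
  have h3 := (O.valuation_le_one_iff _).2 h1
  have h4 := (O.valuation_le_one_iff _).2 h2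
  refine le_antisymm h3 ?_
  have h5 : O.valuation x * O.valuation x⁻¹ = 1 := by
    rw [← map_mul, mul_inv_cancel₀ hx, map_one]
  calc (1 : O.ValueGroup) = O.valuation x * O.valuation x⁻¹ := h5.symm
    _ ≤ O.valuation x * 1 := mul_le_mul' le_rfl h4
    _ = _ := mul_one _

end maxel

section tower

variable {A K E : Type u} [CommRing A] [Field K] [Algebra A K] [Field E] [Algebra K E]
  [Algebra A E] [IsScalarTower A K E]

theorem span_mul (P Q : Submodule A E) : Submodule.span K ((P * Q : Submodule A E) : Set E) =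
    Submodule.span K (P : Set E) * Submodule.span K (Q : Set E) := by
  rw [Submodule.mul_eq_span_mul_set, Submodule.span_span_of_tower, Submodule.span_mul_span]

theorem span_pow (P : Submodule A E) (n : ℕ) :
    Submodule.span K ((P ^ (n + 1) : Submodule A E) : Set E) =
      Submodule.span K (P : Set E) ^ (n + 1) := by
  induction n with
  | zero => rw [zero_add, pow_one, pow_one]
  | succ n ih => rw [pow_succ, span_mul, ih, ← pow_succ]

theorem span_sup (P Q : Submodule A E) : Submodule.span K ((P ⊔ Q : Submodule A E) : Set E) =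
    Submodule.span K (P : Set E) ⊔ Submodule.span K (Q : Set E) := by
  apply le_antisymm
  · rw [Submodule.span_le]
    intro x hx
    obtain ⟨y, hy, z, hz, rfl⟩ := Submodule.mem_sup.1 hx
    exact Submodule.add_mem_sup (Submodule.subset_span hy) (Submodule.subset_span hz)
  · exact sup_le (Submodule.span_mono (show P ≤ P ⊔ Q from le_sup_left))
      (Submodule.span_mono (show Q ≤ P ⊔ Q from le_sup_right))

theorem fg_span {P : Submodule A E} (h : P.FG) : (Submodule.span K (P : Set E)).FG := by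
  obtain ⟨S, rfl⟩ := h
  exact ⟨S, (Submodule.span_span_of_tower A K (S : Set E)).symm⟩

theorem Mx.span {O : ValuationSubring E} (hO : Ov K O) {M : Submodule A E} {w : E}
    (h : Mx O M w) : Mx O (Submodule.span K (M : Set E)) w := by
  refine ⟨Submodule.subset_span h.mem, h.ne, fun x hx => ?_⟩
  induction hx using Submodule.span_induction with
  | mem x hx => exact h.le x hx
  | zero =>
    rw [map_zero]
    exact zero_le'
  | add x y _ _ hx hy => exact Valuation.map_add_le _ hx hy
  | smul k x _ hx =>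
    rw [Algebra.smul_def, map_mul]
    have h1 := (O.valuation_le_one_iff _).2 (hO k)
    calc O.valuation (algebraMap K E k) * O.valuation x ≤ 1 * O.valuation w :=
          mul_le_mul' h1 hx
      _ = _ := one_mul _

variable [IsDomain A] [IsDiscreteValuationRing A] [IsFractionRing A K]

/-- elements of the `K`-span become elements of the lattice after multiplication by a power of
`t` -/
theorem exists_pow_mul {t : A} (ht : Irreducible t) (L : Submodule A E) {x : E}
    (hx : x ∈ Submodule.span K (L : Set E)) : ∃ c : ℕ, algebraMap A E t ^ c * x ∈ L := by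
  have hup : ∀ (y : E) (n : ℕ), y ∈ L → algebraMap A E t ^ n * y ∈ L := by
    intro y n hy
    rw [← map_pow, ← Algebra.smul_def]
    exact L.smul_mem _ hy
  induction hx using Submodule.span_induction with
  | mem x hx => exact ⟨0, by rwa [pow_zero, one_mul]⟩
  | zero => exact ⟨0, by rw [mul_zero]; exact L.zero_mem⟩
  | add x y _ _ hx hy =>
    obtain ⟨a, ha⟩ := hx
    obtain ⟨b, hb⟩ := hy
    refine ⟨a + b, ?_⟩
    have h1 : algebraMap A E t ^ (a + b) * (x + y) =
        algebraMap A E t ^ b * (algebraMap A E t ^ a * x) +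
          algebraMap A E t ^ a * (algebraMap A E t ^ b * y) := by ring
    rw [h1]
    exact L.add_mem (hup _ _ ha) (hup _ _ hb)
  | smul k x _ hx =>
    obtain ⟨a, ha⟩ := hx
    obtain ⟨n, d, hd, rfl⟩ := IsFractionRing.div_surjective (A := A) k
    have hd0 : d ≠ 0 := nonZeroDivisors.ne_zero hd
    obtain ⟨c, u, hu⟩ := IsDiscreteValuationRing.eq_unit_mul_pow_irreducible hd0 ht
    refine ⟨c + a, ?_⟩
    have hdE : algebraMap A E d ≠ 0 := by
      rw [IsScalarTower.algebraMap_apply A K E]
      exact (map_ne_zero _).2 (IsFractionRing.to_map_ne_zero_of_mem_nonZeroDivisors hd)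
    have h1 : algebraMap A E t ^ (c + a) * ((algebraMap A K n / algebraMap A K d) • x) =
        (n * ((u⁻¹ : Aˣ) : A)) • (algebraMap A E t ^ a * x) := by
      have h2 : algebraMap A E t ^ c = algebraMap A E ((u⁻¹ : Aˣ) : A) * algebraMap A E d := by
        rw [hu, ← map_pow, ← map_mul, ← mul_assoc, Units.inv_mul, one_mul]
      rw [Algebra.smul_def, Algebra.smul_def, map_div₀, ← IsScalarTower.algebraMap_apply,
        ← IsScalarTower.algebraMap_apply, pow_add, h2, map_mul]
      field_simp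
    rw [h1]
    exact L.smul_mem _ ha

/-- a finitely generated module in the `K`-span of a lattice -/
theorem exists_span_pow {t : A} (ht : Irreducible t) {L L' : Submodule A E} (hL : L.FG)
    (h : ∀ x ∈ L, x ∈ Submodule.span K (L' : Set E)) :
    ∃ c : ℕ, Submodule.span A {algebraMap A E t} ^ c * L ≤ L' := by
  classical
  obtain ⟨S, rfl⟩ := hL
  have h1 : ∀ x ∈ S, ∃ c : ℕ, algebraMap A E t ^ c * x ∈ L' := fun x hx =>
    exists_pow_mul ht L' (h x (Submodule.subset_span hx))
  choose! c hc using h1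
  refine ⟨S.sup c, ?_⟩
  rw [Submodule.span_pow, Submodule.span_mul_span, Submodule.span_le]
  rintro _ ⟨y, hy, x, hx, rfl⟩
  rw [Set.singleton_pow, Set.mem_singleton_iff] at hy
  subst hy
  have hle : c x ≤ S.sup c := Finset.le_sup hx
  obtain ⟨m, hm⟩ := Nat.exists_eq_add_of_le hle
  change algebraMap A E t ^ S.sup c * x ∈ L'
  have h2 : algebraMap A E t ^ S.sup c * x = t ^ m • (algebraMap A E t ^ c x * x) := by
    rw [hm, Algebra.smul_def, map_pow]
    ring
  rw [h2]
  exact L'.smul_mem _ (hc x hx)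

end tower

theorem pf_LAT (hVCR : T_VCR.{u}) (hLA1 : T_LA1.{u}) : T_LAT.{u} := by
  classical
  intro A K E _ _ _ _ _ _ _ _ _ _ t p F ht hp hF hO
  have ht0 : algebraMap A E t ≠ 0 := by
    rw [IsScalarTower.algebraMap_apply A K E]
    exact (map_ne_zero _).2 (IsFractionRing.to_map_ne_zero_of_mem_nonZeroDivisors
      (mem_nonZeroDivisors_of_ne_zero ht.ne_zero))
  obtain ⟨M0, M1, hM0, hM1, hM⟩ := hLA1 A E t p (insert 1 F) ht0 hp (Finset.insert_nonempty _ _)
    (by
      intro f hf
      rcases Finset.mem_insert.1 hf with rfl | hf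
      · exact one_ne_zero
      · exact hF f hf)
  -- the maximal elements
  have hmax : ∀ O : ValuationSubring E, Ov A O → ∃ w₀ w₁, Mx O M0 w₀ ∧ Mx O M1 w₁ ∧
      O.valuation w₁ ^ p = O.valuation (algebraMap A E t) * O.valuation w₀ ^ p ∧
      O.valuation w₁ ≤ O.valuation w₀ := by
    intro O hOv
    have h1 : ∃ f ∈ insert 1 F, O.valuation (algebraMap A E t * f ^ p) = 1 := by
      by_cases h : (algebraMap A E t)⁻¹ ∈ O
      · refine ⟨1, Finset.mem_insert_self _ _, ?_⟩
        rw [one_pow, mul_one]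
        exact val_one ht0 (hOv t) h
      · obtain ⟨f, hf, h2, h3⟩ := hO O hOv h
        exact ⟨f, Finset.mem_insert_of_mem hf, val_one (mul_ne_zero ht0
          (pow_ne_zero _ (hF f hf))) h2 h3⟩
    obtain ⟨w₀, hw₀, w₁, hw₁, h0, h1', hm0, hm1, he⟩ := hM O hOv h1
    refine ⟨w₀, w₁, ⟨hw₀, h0, hm0⟩, ⟨hw₁, h1', hm1⟩, he, ?_⟩
    have h4 : O.valuation w₁ ^ p ≤ O.valuation w₀ ^ p := by
      rw [he]
      calc O.valuation (algebraMap A E t) * O.valuation w₀ ^ p ≤ 1 * O.valuation w₀ ^ p :=
            mul_le_mul' ((O.valuation_le_one_iff _).2 (hOv t)) le_rfl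
        _ = _ := one_mul _
    exact (pow_le_pow_iff_left₀ zero_le' zero_le' (by omega)).1 h4
  -- over `K`
  have hKA : ∀ O : ValuationSubring E, Ov K O → Ov A O := by
    intro O hOv a
    rw [IsScalarTower.algebraMap_apply A K E]
    exact hOv _
  have hKt : ∀ O : ValuationSubring E, Ov K O → O.valuation (algebraMap A E t) = 1 := by
    intro O hOv
    refine val_one ht0 (hKA O hOv t) ?_
    rw [IsScalarTower.algebraMap_apply A K E, ← map_inv₀]
    exact hOv _
  obtain ⟨V0, hV0⟩ : ∃ V : Submodule K E, V = Submodule.span K (M0 : Set E) := ⟨_, rfl⟩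
  obtain ⟨V1, hV1⟩ : ∃ V : Submodule K E, V = Submodule.span K (M1 : Set E) := ⟨_, rfl⟩
  obtain ⟨k1, hk1⟩ := hVCR K E V1 (V0 ⊔ V1) le_sup_right (by
      rw [hV0, hV1]
      exact (fg_span hM0).sup (fg_span hM1)) (by
      intro O hOv
      obtain ⟨w₀, w₁, h0, h1, he, hle⟩ := hmax O (hKA O hOv)
      have h0' := h0.span hOv
      have h1' := h1.span hOv
      rw [← hV0] at h0'
      rw [← hV1] at h1'
      have heq : O.valuation w₀ ≤ O.valuation w₁ := by
        rw [hKt O hOv, one_mul] at he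
        exact (pow_le_pow_iff_left₀ zero_le' zero_le' (by omega)).1 he.ge
      exact dm_of (h0'.sup h1' hle) h1' heq)
  obtain ⟨P, hP⟩ : ∃ P : Submodule A E, P = M0 ⊔ M1 := ⟨_, rfl⟩
  have hPfg : P.FG := by rw [hP]; exact hM0.sup hM1
  have hM1P : M1 ≤ P := by rw [hP]; exact le_sup_right
  have hspan : Submodule.span K ((P ^ (k1 + 1) : Submodule A E) : Set E) =
      Submodule.span K ((M1 * P ^ k1 : Submodule A E) : Set E) := by
    rw [span_pow, hP, span_sup, ← hV0, ← hV1, hk1, span_mul, ← hV1]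
    congr 1
    rcases Nat.eq_zero_or_pos k1 with rfl | hk
    · rw [pow_zero, pow_zero]
      apply le_antisymm
      · rw [Submodule.one_le]
        exact Submodule.subset_span (Submodule.one_le.1 le_rfl)
      · rw [Submodule.span_le]
        intro x hx
        obtain ⟨a, rfl⟩ := Submodule.mem_one.1 hx
        rw [IsScalarTower.algebraMap_apply A K E]
        exact Submodule.mem_one.2 ⟨_, rfl⟩
    · obtain ⟨k, rfl⟩ : ∃ k, k1 = k + 1 := ⟨k1 - 1, by omega⟩
      rw [span_pow, span_sup, ← hV0, ← hV1]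
  have hfg0 : (P ^ (k1 + 1)).FG := hPfg.pow _
  have hfg1 : (M1 * P ^ k1).FG := hM1.mul (hPfg.pow _)
  have hle : M1 * P ^ k1 ≤ P ^ (k1 + 1) := by
    rw [pow_succ']
    exact mul_le_mul' hM1P le_rfl
  obtain ⟨c, hc⟩ := exists_span_pow (K := K) ht hfg0 (L' := M1 * P ^ k1) (by
    intro x hx
    rw [← hspan]
    exact Submodule.subset_span hx)
  -- the maximal elements of the lattices
  have hOvt : Ov A (⊤ : ValuationSubring E) := fun a => ValuationSubring.mem_top _
  obtain ⟨N0, hN0⟩ : ∃ N : Submodule A E, N = (M1 * P ^ k1) ^ p := ⟨_, rfl⟩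
  obtain ⟨N1, hN1⟩ : ∃ N : Submodule A E, N = Submodule.span A {algebraMap A E t} *
    (P ^ (k1 + 1)) ^ p := ⟨_, rfl⟩
  have hmaxN : ∀ O : ValuationSubring E, Ov A O → ∃ x y, Mx O N0 x ∧ Mx O N1 y ∧
      O.valuation x = O.valuation y := by
    intro O hOv
    obtain ⟨w₀, w₁, h0, h1, he, hle'⟩ := hmax O hOv
    have hPm : Mx O P w₀ := by
      rw [hP]
      exact h0.sup h1 hle'
    refine ⟨(w₁ * w₀ ^ k1) ^ p, algebraMap A E t * (w₀ ^ (k1 + 1)) ^ p, ?_, ?_, ?_⟩
    · rw [hN0]
      exact (h1.mul (hPm.pow hOv k1)).pow hOv p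
    · rw [hN1]
      exact (Mx.single hOv ht0).mul ((hPm.pow hOv (k1 + 1)).pow hOv p)
    · rw [map_pow, map_mul, mul_pow, he, map_pow, map_mul, map_pow, map_pow, pow_succ,
        mul_pow, mul_assoc, mul_comm (O.valuation w₀ ^ p)]
  have hNfg : (N0 ⊔ N1).FG := by
    rw [hN0, hN1]
    refine (hfg1.pow _).sup (Submodule.FG.mul ?_ (hfg0.pow _))
    exact Submodule.fg_span_singleton _
  obtain ⟨a, ha⟩ := hVCR A E N0 (N0 ⊔ N1) le_sup_left hNfg (by
    intro O hOv
    obtain ⟨x, y, hx, hy, he⟩ := hmaxN O hOv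
    exact dm_of (hx.sup hy he.ge) hx le_rfl)
  obtain ⟨b, hb⟩ := hVCR A E N1 (N0 ⊔ N1) le_sup_right hNfg (by
    intro O hOv
    obtain ⟨x, y, hx, hy, he⟩ := hmaxN O hOv
    exact dm_of (hx.sup hy he.ge) hy he.le)
  refine ⟨P ^ (k1 + 1), M1 * P ^ k1, c, max a b, hfg0, hfg1, ?_, hle, hc, ?_⟩
  · obtain ⟨w₀, w₁, h0, h1, he, hle'⟩ := hmax ⊤ hOvt
    intro hbot
    have hPm : Mx ⊤ P w₀ := by
      rw [hP]
      exact h0.sup h1 hle'
    have h2 := h1.mul (hPm.pow hOvt k1)
    have h3 := h2.mem
    rw [hbot, Submodule.mem_bot] at h3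
    exact h2.ne h3
  · rw [← hN0, ← hN1]
    have key : ∀ (N : Submodule A E) (m : ℕ), (N0 ⊔ N1) ^ (m + 1) = N * (N0 ⊔ N1) ^ m →
        m ≤ max a b → (N0 ⊔ N1) ^ (max a b) * N = (N0 ⊔ N1) ^ (max a b + 1) := by
      intro N m hm hle
      obtain ⟨r, hr⟩ := Nat.exists_eq_add_of_le hle
      rw [hr, add_right_comm, pow_add _ (m + 1) r, hm, pow_add, mul_comm, ← mul_assoc]
    rw [key N0 a ha (le_max_left _ _), key N1 b hb (le_max_right _ _)]

end Pool.Agent.H4.IX
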